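import Pool.Agent.Lib.MP_12ced6_co.Assemble

/-!
# Fold-and-cut with all vertices at one point

Every polygonal piece of paper has a flat folding that maps exactly its boundary to a line and all
its vertices to one point.

The paper is divided into a thin ribbon along the boundary and a triangulated inner parallel
polygon.  The edges and diagonals of the inner polygon are folded in `V` shape to a horizontal line
and the triangles along the bisectors of their angles; the facets are stacked according to the
depth-first order of the triangulation.  This gives a flat folding with condition (E).  Folding all
the layers along vertical lines, again and again, then brings all the vertices to one point.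
-/

namespace Pool.Agent.Results.MP_12ced6_co.EveryPolygon

open Pool.Agent.Lib.FoldCut

theorem result : ∀ (n : ℕ) (v : ZMod n → ℂ) (P : Set ℂ), IsPaper P n v →
    ∃ F : FlatFolding P, CutsBoundary F ∧ VerticesTogether F v :=
  fun _ _ _ h => exists_flat_folding h

end Pool.Agent.Results.MP_12ced6_co.EveryPolygon
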